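import Mathlib

set_option autoImplicit false

/-!
The undirected Sylow graph of a product of two normal subgroups `G = AB` may have fewer edges than
the union of the undirected Sylow graphs of `A` and `B`.

Let `V` be the group of all functions `f : Fin 5 → ℤ/3ℤ` with sum zero, let `H = V ⋊ S_5` and let
`G` be the regular wreath product of a group of order `5` by `H`; let `A` be the kernel of the
natural map `G → S_5` and `B = G`. Then `5 → 3` is an arc of the Sylow graph of `A`, while neither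
`5 → 3` nor `3 → 5` is an arc of the Sylow graph of `G`.
-/

namespace Pool.Agent.Results.MP_8e29f8_al.SymFive

/-- There is an arc `p → q` in the Sylow graph of `H`: `q` divides `|N_H(P) : P C_H(P)|` for a
Sylow `p`-subgroup `P` of `H`. -/
def Arc (H : Type) [Group H] (p q : ℕ) : Prop :=
  ∃ P : Sylow p H, q ∣ ((P : Subgroup H) ⊔ Subgroup.centralizer (P : Set H)).relIndex
    (Subgroup.normalizer (P : Set H))

/-- `{p, q}` is an edge of the undirected Sylow graph of `H`. -/
def Edge (H : Type) [Group H] (p q : ℕ) : Prop :=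
  p.Prime ∧ q.Prime ∧ p ∣ Nat.card H ∧ q ∣ Nat.card H ∧ p ≠ q ∧ (Arc H p q ∨ Arc H q p)

/-! ### Two facts about the symmetric group of degree 5 -/

set_option maxRecDepth 100000 in
set_option synthInstance.maxSize 100000 in
theorem five_three : ∀ c : Equiv.Perm (Fin 5), c ≠ 1 → c ^ 5 = 1 →
    ∀ x : Equiv.Perm (Fin 5), x ^ 3 = 1 → (∃ k : Fin 5, x * c * x⁻¹ = c ^ (k : ℕ)) → x = 1 := by
  decide

set_option maxRecDepth 100000 in
set_option synthInstance.maxSize 100000 in
theorem three_five : ∀ c : Equiv.Perm (Fin 5), c ≠ 1 → c ^ 3 = 1 →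
    ∀ x : Equiv.Perm (Fin 5), x ^ 5 = 1 → (∃ k : Fin 3, x * c * x⁻¹ = c ^ (k : ℕ)) → x = 1 := by
  decide

set_option maxRecDepth 100000 in
/-- A nontrivial permutation of order dividing `5` has only one orbit. -/
theorem orbit_five : ∀ c : Equiv.Perm (Fin 5), c ≠ 1 → c ^ 5 = 1 →
    ∀ i : Fin 5, ∃ k : Fin 5, (c ^ (k : ℕ)) 0 = i := by
  decide

/-! ### General lemmas -/

/-- If all elements of `p`-power order of `N` lie in `K` then `p` does not divide `|N : K|`. -/
theorem not_dvd_relIndex {G : Type} [Group G] [Finite G] (p : ℕ) [hp : Fact p.Prime]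
    (K N : Subgroup G) (h : ∀ x ∈ N, (∃ k : ℕ, x ^ p ^ k = 1) → x ∈ K) :
    ¬ p ∣ K.relIndex N := by
  intro hdvd
  obtain ⟨R⟩ : Nonempty (Sylow p N) := inferInstance
  have hRK : (R : Subgroup N) ≤ K.subgroupOf N := by
    intro r hr
    obtain ⟨k, hk⟩ := R.isPGroup' ⟨r, hr⟩
    rw [Subgroup.mem_subgroupOf]
    refine h r r.2 ⟨k, ?_⟩
    have := congrArg (fun z : (R : Subgroup N) => ((z : N) : G)) hk
    simpa using this
  have h1 : ¬ p ∣ (R : Subgroup N).index := R.not_dvd_index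
  exact h1 (hdvd.trans (Subgroup.index_dvd_of_le hRK))

/-- An element of order dividing a power of `p` and a power of `q` is trivial. -/
theorem eq_one_of_pows {G : Type} [Group G] (p q : ℕ) (hpq : p.Coprime q) (x : G)
    (h1 : ∃ k : ℕ, x ^ p ^ k = 1) (h2 : ∃ k : ℕ, x ^ q ^ k = 1) : x = 1 := by
  obtain ⟨k, hk⟩ := h1
  obtain ⟨l, hl⟩ := h2
  have d1 := orderOf_dvd_of_pow_eq_one hk
  have d2 := orderOf_dvd_of_pow_eq_one hl
  have hc : (p ^ k).Coprime (q ^ l) := Nat.Coprime.pow k l hpq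
  exact orderOf_eq_one_iff.1 (Nat.eq_one_of_dvd_coprimes hc d1 d2)

theorem pow_map {G K : Type} [Group G] [Group K] (f : G →* K) (p : ℕ) (x : G)
    (h : ∃ k : ℕ, x ^ p ^ k = 1) : ∃ k : ℕ, (f x) ^ p ^ k = 1 := by
  obtain ⟨k, hk⟩ := h
  exact ⟨k, by rw [← map_pow, hk, map_one]⟩

theorem card_perm_five : Nat.card (Equiv.Perm (Fin 5)) = 120 := by
  rw [Nat.card_eq_fintype_card, Fintype.card_perm]; rfl

/-- An element of `5`-power order in `S_5` has order dividing `5`. -/
theorem pow_five (x : Equiv.Perm (Fin 5)) (h : ∃ k : ℕ, x ^ 5 ^ k = 1) : x ^ 5 = 1 := by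
  obtain ⟨k, hk⟩ := h
  have d1 := orderOf_dvd_of_pow_eq_one hk
  have d2 := orderOf_dvd_natCard x
  rw [card_perm_five] at d2
  obtain ⟨j, -, hj⟩ := (Nat.dvd_prime_pow (by norm_num)).1 d1
  have h5 : orderOf x ∣ 5 := by
    rcases Nat.lt_or_ge j 2 with h2 | h2
    · rw [hj]; interval_cases j <;> norm_num
    · exfalso
      have : 5 ^ 2 ∣ 120 := (pow_dvd_pow 5 h2).trans (hj ▸ d2)
      norm_num at this
  exact orderOf_dvd_iff_pow_eq_one.1 h5

/-- An element of `3`-power order in `S_5` has order dividing `3`. -/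
theorem pow_three (x : Equiv.Perm (Fin 5)) (h : ∃ k : ℕ, x ^ 3 ^ k = 1) : x ^ 3 = 1 := by
  obtain ⟨k, hk⟩ := h
  have d1 := orderOf_dvd_of_pow_eq_one hk
  have d2 := orderOf_dvd_natCard x
  rw [card_perm_five] at d2
  obtain ⟨j, -, hj⟩ := (Nat.dvd_prime_pow (by norm_num)).1 d1
  have h5 : orderOf x ∣ 3 := by
    rcases Nat.lt_or_ge j 2 with h2 | h2
    · rw [hj]; interval_cases j <;> norm_num
    · exfalso
      have : 3 ^ 2 ∣ 120 := (pow_dvd_pow 3 h2).trans (hj ▸ d2)
      norm_num at this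
  exact orderOf_dvd_iff_pow_eq_one.1 h5

/-- A Sylow `p`-subgroup of `S_5`, for `p = 3, 5`, has order `p`. -/
theorem card_sylow (p : ℕ) [Fact p.Prime] (h : p ∣ 120) (h' : ¬ p ^ 2 ∣ 120)
    (P : Sylow p (Equiv.Perm (Fin 5))) : Nat.card P = p := by
  rw [Sylow.card_eq_multiplicity, card_perm_five]
  have h1 : p ∣ p ^ (Nat.factorization 120) p := by
    have := (Nat.Prime.dvd_iff_one_le_factorization (Fact.out : p.Prime) (by norm_num)).1 h
    exact dvd_pow_self p (by omega)
  have h2 : (Nat.factorization 120) p < 2 := by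
    by_contra hcon
    exact h' ((Nat.Prime.pow_dvd_iff_le_factorization (Fact.out : p.Prime) (by norm_num)).2
      (by omega))
  have h3 : 1 ≤ (Nat.factorization 120) p :=
    (Nat.Prime.dvd_iff_one_le_factorization (Fact.out : p.Prime) (by norm_num)).1 h
  have h4 : (Nat.factorization 120) p = 1 := by omega
  rw [h4, pow_one]

/-- If `P` is a Sylow subgroup of `G` for `p = 3, 5`, `f : G → S_5` is onto and `x` normalises
`P`, then there is `y ∈ P` with `f y ≠ 1`, `(f y)^p = 1`, and `f x` normalises `⟨f y⟩`. -/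
theorem exists_gen {G : Type} [Group G] [Finite G] (f : G →* Equiv.Perm (Fin 5))
    (hf : Function.Surjective f) (p : ℕ) [hp : Fact p.Prime] (h : p ∣ 120) (h' : ¬ p ^ 2 ∣ 120)
    (P : Sylow p G) :
    ∃ y ∈ P, f y ≠ 1 ∧ (f y) ^ p = 1 ∧ ∀ x ∈ Subgroup.normalizer (P : Set G),
      ∃ k : Fin p, f x * f y * (f x)⁻¹ = f y ^ (k : ℕ) := by
  have hcard := card_sylow p h h' (P.mapSurjective hf)
  set Q : Sylow p (Equiv.Perm (Fin 5)) := P.mapSurjective hf with hQ
  have hQmem : ∀ z, z ∈ Q ↔ ∃ y ∈ P, f y = z := by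
    intro z
    change z ∈ (Q : Subgroup (Equiv.Perm (Fin 5))) ↔ _
    rw [hQ, Sylow.coe_mapSurjective, Subgroup.mem_map]
    rfl
  have hne : (Q : Subgroup (Equiv.Perm (Fin 5))) ≠ ⊥ := by
    intro hbot
    have : Nat.card Q = 1 := by
      change Nat.card (Q : Subgroup (Equiv.Perm (Fin 5))) = 1
      rw [hbot]; simp
    rw [hcard] at this
    exact hp.out.one_lt.ne' this
  obtain ⟨z, hzQ, hz⟩ : ∃ z ∈ Q, z ≠ 1 := by
    by_contra hcon
    push Not at hcon
    exact hne ((Subgroup.eq_bot_iff_forall _).2 hcon)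
  obtain ⟨y, hyP, hyz⟩ := (hQmem z).1 hzQ
  subst hyz
  have hpow : ∀ w ∈ Q, w ^ p = 1 := by
    intro w hw
    have h1 : (⟨w, hw⟩ : (Q : Subgroup (Equiv.Perm (Fin 5)))) ^
        Nat.card (Q : Subgroup (Equiv.Perm (Fin 5))) = 1 := pow_card_eq_one'
    rw [hcard] at h1
    exact congrArg Subtype.val h1
  have horder : orderOf (f y) = p := orderOf_eq_prime (hpow _ hzQ) hz
  have hzp : ∀ w ∈ Q, w ∈ Subgroup.zpowers (f y) := by
    have hle : Subgroup.zpowers (f y) ≤ (Q : Subgroup (Equiv.Perm (Fin 5))) := by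
      rw [Subgroup.zpowers_le]; exact hzQ
    have heq : Subgroup.zpowers (f y) = (Q : Subgroup (Equiv.Perm (Fin 5))) := by
      apply Subgroup.eq_of_le_of_card_ge hle
      rw [Nat.card_zpowers, horder]
      exact hcard.le
    intro w hw
    rw [heq]; exact hw
  refine ⟨y, hyP, hz, hpow _ hzQ, fun x hx => ?_⟩
  have hconj : x * y * x⁻¹ ∈ P := by
    have := (Subgroup.mem_normalizer_iff.1 hx y).1 hyP
    exact this
  have hm : f x * f y * (f x)⁻¹ ∈ Q := (hQmem _).2 ⟨_, hconj, by simp⟩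
  have hm' := hzp _ hm
  rw [mem_zpowers_iff_mem_range_orderOf, horder] at hm'
  rw [Finset.mem_image] at hm'
  obtain ⟨k, hk, hk'⟩ := hm'
  exact ⟨⟨k, Finset.mem_range.1 hk⟩, hk'.symm⟩

/-! ### The general argument -/

section General

variable {G H : Type} [Group G] [Group H] [Finite G]
  (π : G →* H) (lam : H →* Equiv.Perm (Fin 5))

theorem no_arc_five_three (hπ : Function.Surjective π) (hl : Function.Surjective lam)
    (hW : IsPGroup 5 π.ker) (hV : IsPGroup 3 lam.ker)
    (hfix : ∀ v ∈ lam.ker, ∀ h : H, lam h ≠ 1 → (lam h) ^ 5 = 1 → v * h = h * v → v = 1) :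
    ¬ Arc G 5 3 := by
  have : Fact (Nat.Prime 5) := ⟨by norm_num⟩
  have : Fact (Nat.Prime 3) := ⟨by norm_num⟩
  rintro ⟨P, hP⟩
  refine not_dvd_relIndex 3 _ _ (fun x hx hx3 => ?_) hP
  obtain ⟨y, hyP, hy1, hy5, hy⟩ := exists_gen (lam.comp π) (hl.comp hπ) 5 (by norm_num)
    (by norm_num) P
  have hx1 : lam (π x) = 1 :=
    five_three _ hy1 hy5 _ (pow_three _ (pow_map (lam.comp π) 3 x hx3)) (hy x hx)
  have hcomm : π x * π y * (π x)⁻¹ * (π y)⁻¹ = 1 := by
    apply eq_one_of_pows 3 5 (by norm_num)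
    · have hmem : π x * π y * (π x)⁻¹ * (π y)⁻¹ ∈ lam.ker := by
        rw [MonoidHom.mem_ker]
        simp [hx1]
      obtain ⟨k, hk⟩ := hV ⟨_, hmem⟩
      exact ⟨k, by simpa using congrArg Subtype.val hk⟩
    · have hmem : x * y * x⁻¹ * y⁻¹ ∈ (P : Subgroup G) := by
        have h1 := (Subgroup.mem_normalizer_iff.1 hx y).1 hyP
        exact mul_mem h1 (inv_mem hyP)
      obtain ⟨k, hk⟩ := P.isPGroup' ⟨_, hmem⟩
      have := pow_map π 5 (x * y * x⁻¹ * y⁻¹) ⟨k, by simpa using congrArg Subtype.val hk⟩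
      simpa using this
  have hπx : π x = 1 := by
    refine hfix (π x) hx1 (π y) hy1 hy5 ?_
    have := mul_inv_eq_one.1 hcomm
    exact mul_inv_eq_iff_eq_mul.1 this
  have hx' : x = 1 := by
    apply eq_one_of_pows 3 5 (by norm_num) _ hx3
    obtain ⟨k, hk⟩ := hW ⟨x, hπx⟩
    exact ⟨k, by simpa using congrArg Subtype.val hk⟩
  rw [hx']
  exact one_mem _

theorem no_arc_three_five (hπ : Function.Surjective π) (hl : Function.Surjective lam)
    (hW : IsPGroup 5 π.ker) (hV : IsPGroup 3 lam.ker) :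
    ¬ Arc G 3 5 := by
  have : Fact (Nat.Prime 5) := ⟨by norm_num⟩
  have : Fact (Nat.Prime 3) := ⟨by norm_num⟩
  rintro ⟨P, hP⟩
  refine not_dvd_relIndex 5 _ _ (fun x hx hx5 => ?_) hP
  obtain ⟨y, hyP, hy1, hy3, hy⟩ := exists_gen (lam.comp π) (hl.comp hπ) 3 (by norm_num)
    (by norm_num) P
  have hx1 : lam (π x) = 1 :=
    three_five _ hy1 hy3 _ (pow_five _ (pow_map (lam.comp π) 5 x hx5)) (hy x hx)
  have hπx : π x = 1 := by
    apply eq_one_of_pows 3 5 (by norm_num) _ _ (pow_map π 5 x hx5)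
    obtain ⟨k, hk⟩ := hV ⟨π x, hx1⟩
    exact ⟨k, by simpa using congrArg Subtype.val hk⟩
  refine (le_sup_right : Subgroup.centralizer (P : Set G) ≤ _) ?_
  rw [Subgroup.mem_centralizer_iff]
  intro z hz
  have hcomm : x * z * x⁻¹ * z⁻¹ = 1 := by
    apply eq_one_of_pows 3 5 (by norm_num)
    · have hmem : x * z * x⁻¹ * z⁻¹ ∈ (P : Subgroup G) := by
        have h1 := (Subgroup.mem_normalizer_iff.1 hx z).1 hz
        exact mul_mem h1 (inv_mem hz)
      obtain ⟨k, hk⟩ := P.isPGroup' ⟨_, hmem⟩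
      exact ⟨k, by simpa using congrArg Subtype.val hk⟩
    · have hmem : x * z * x⁻¹ * z⁻¹ ∈ π.ker := by
        rw [MonoidHom.mem_ker]
        simp [hπx]
      obtain ⟨k, hk⟩ := hW ⟨_, hmem⟩
      exact ⟨k, by simpa using congrArg Subtype.val hk⟩
  have := mul_inv_eq_one.1 hcomm
  exact (mul_inv_eq_iff_eq_mul.1 this).symm

/-- The arc `5 → 3` for the kernel `A` of the map onto `S_5`. -/
theorem arc_five_three (hπ : Function.Surjective π)
    (hW : IsPGroup 5 π.ker) (hV : IsPGroup 3 lam.ker)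
    (hV1 : ∃ v ∈ lam.ker, v ≠ 1)
    (hfaith : ∀ g : G, (∀ w ∈ π.ker, g * w = w * g) → g ∈ π.ker) :
    Arc (lam.comp π).ker 5 3 := by
  have : Fact (Nat.Prime 5) := ⟨by norm_num⟩
  have : Fact (Nat.Prime 3) := ⟨by norm_num⟩
  set A := (lam.comp π).ker with hA
  obtain ⟨P⟩ : Nonempty (Sylow 5 A) := inferInstance
  refine ⟨P, ?_⟩
  let W' : Subgroup A := (π.comp A.subtype).ker
  have hW'p : IsPGroup 5 W' := by
    rintro ⟨⟨w, hwA⟩, hw⟩
    obtain ⟨k, hk⟩ := hW ⟨w, hw⟩
    refine ⟨k, ?_⟩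
    have := congrArg Subtype.val hk
    ext
    simpa using this
  have hWP : W' ≤ (P : Subgroup A) := hW'p.le_sylow_of_normal P
  have hPW : (P : Subgroup A) ≤ W' := by
    intro y hy
    change π y = 1
    apply eq_one_of_pows 3 5 (by norm_num)
    · obtain ⟨k, hk⟩ := hV ⟨π y, y.2⟩
      exact ⟨k, by simpa using congrArg Subtype.val hk⟩
    · obtain ⟨k, hk⟩ := P.isPGroup' ⟨y, hy⟩
      apply pow_map
      exact ⟨k, by simpa using congrArg (fun z : (P : Subgroup A) => ((z : A) : G)) hk⟩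
  have hPeq : (P : Subgroup A) = W' := le_antisymm hPW hWP
  have hnorm : Subgroup.normalizer (P : Set A) = ⊤ := by
    have : ((P : Subgroup A) : Set A) = (W' : Set A) := by rw [hPeq]
    change Subgroup.normalizer ((P : Subgroup A) : Set A) = ⊤
    rw [this]
    exact Subgroup.normalizer_eq_top_iff.2 inferInstance
  have hcent : Subgroup.centralizer (P : Set A) ≤ W' := by
    intro g hg
    rw [Subgroup.mem_centralizer_iff] at hg
    change π g = 1
    have := hfaith g (fun w hw => ?_)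
    · exact this
    · have hwA : w ∈ A := by
        rw [hA, MonoidHom.mem_ker, MonoidHom.comp_apply, MonoidHom.mem_ker.1 hw, map_one]
      have h1 : (⟨w, hwA⟩ : A) ∈ (P : Subgroup A) := by
        rw [hPeq]; exact hw
      exact (congrArg Subtype.val (hg _ h1)).symm
  have hsup : (P : Subgroup A) ⊔ Subgroup.centralizer (P : Set A) = W' := by
    rw [hPeq]
    exact sup_eq_left.2 hcent
  rw [hnorm, hsup, Subgroup.relIndex_top_right]
  -- the index of `W'` in `A` is divisible by `3`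
  obtain ⟨v, hv, hv1⟩ := hV1
  obtain ⟨a, ha⟩ := hπ v
  have haA : a ∈ A := by
    rw [hA, MonoidHom.mem_ker, MonoidHom.comp_apply, ha]; exact hv
  obtain ⟨k, hk⟩ := hV ⟨v, hv⟩
  have hk' : v ^ 3 ^ k = 1 := by simpa using congrArg Subtype.val hk
  have hord : orderOf ((⟨a, haA⟩ : A) : A ⧸ W') ∣ 3 ^ k := by
    rw [orderOf_dvd_iff_pow_eq_one, ← QuotientGroup.mk_pow, QuotientGroup.eq_one_iff]
    change π ((⟨a, haA⟩ : A) ^ 3 ^ k : A) = 1
    simp [ha, hk']
  have hne : orderOf ((⟨a, haA⟩ : A) : A ⧸ W') ≠ 1 := by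
    intro h
    rw [orderOf_eq_one_iff, QuotientGroup.eq_one_iff] at h
    apply hv1
    rw [← ha]
    exact h
  have h3 : 3 ∣ orderOf ((⟨a, haA⟩ : A) : A ⧸ W') := by
    obtain ⟨j, -, hj⟩ := (Nat.dvd_prime_pow (by norm_num)).1 hord
    rw [hj] at hne ⊢
    exact dvd_pow_self 3 (by rintro rfl; simp at hne)
  exact h3.trans ((orderOf_dvd_natCard _).trans (dvd_of_eq rfl))

end General

/-! ### The concrete groups -/

/-- The product map on `(ℤ/3ℤ)^5`, written multiplicatively. -/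
def prodHom : (Fin 5 → Multiplicative (ZMod 3)) →* Multiplicative (ZMod 3) where
  toFun f := ∏ i, f i
  map_one' := by simp
  map_mul' f g := by simp [Finset.prod_mul_distrib]

/-- The permutation action of `S_5` on the vectors of sum zero in `(ℤ/3ℤ)^5`. -/
def permAut (x : Equiv.Perm (Fin 5)) : MulAut prodHom.ker where
  toFun f := ⟨fun i => f.1 (x⁻¹ i), by
    have h := f.2
    rw [MonoidHom.mem_ker] at h ⊢
    change ∏ i, f.1 (x⁻¹ i) = 1
    change ∏ i, f.1 i = 1 at h
    rw [← h]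
    exact Equiv.prod_comp (x⁻¹) f.1⟩
  invFun f := ⟨fun i => f.1 (x i), by
    have h := f.2
    rw [MonoidHom.mem_ker] at h ⊢
    change ∏ i, f.1 (x i) = 1
    change ∏ i, f.1 i = 1 at h
    rw [← h]
    exact Equiv.prod_comp x f.1⟩
  left_inv f := by ext i; simp
  right_inv f := by ext i; simp
  map_mul' f g := by ext i; rfl

/-- The permutation action as a homomorphism. -/
def permHom : Equiv.Perm (Fin 5) →* MulAut prodHom.ker where
  toFun := permAut
  map_one' := by ext f i; rfl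
  map_mul' x y := by ext f i; rfl

/-- `H = V ⋊ S_5`. -/
abbrev HH : Type := prodHom.ker ⋊[permHom] Equiv.Perm (Fin 5)

/-- `G`: the regular wreath product of `ℤ/5ℤ` by `H`. -/
abbrev GG : Type := RegularWreathProduct (Multiplicative (ZMod 5)) HH

instance : Finite HH := Finite.of_equiv _ SemidirectProduct.equivProd.symm

/-- The map `G → H`. -/
def pi : GG →* HH := RegularWreathProduct.rightHom

/-- The map `H → S_5`. -/
def lam : HH →* Equiv.Perm (Fin 5) := SemidirectProduct.rightHom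

theorem pi_surj : Function.Surjective pi := fun h => ⟨RegularWreathProduct.inl h, rfl⟩

theorem lam_surj : Function.Surjective lam := SemidirectProduct.rightHom_surjective

theorem pow_left_five (f : HH → Multiplicative (ZMod 5)) :
    (⟨f, 1⟩ : GG) ^ 5 = 1 := by
  have hm : ∀ a b : HH → Multiplicative (ZMod 5), (⟨a, 1⟩ : GG) * ⟨b, 1⟩ = ⟨a * b, 1⟩ := by
    intro a b
    ext x
    · simp
    · simp
    · simp
  have h5 : ∀ z : Multiplicative (ZMod 5), z * z * z * z * z = 1 := by decide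
  have e : (⟨f, 1⟩ : GG) ^ 5 = ⟨f * f * f * f * f, 1⟩ := by
    simp only [pow_succ, pow_zero, one_mul, hm]
  rw [e]
  ext x
  · simp [h5]
  · simp
  · simp

theorem ker_pi : IsPGroup 5 pi.ker := by
  rintro ⟨⟨f, h⟩, hw⟩
  have hh : h = 1 := hw
  subst hh
  refine ⟨1, ?_⟩
  ext1
  exact pow_left_five f

theorem ker_lam : IsPGroup 3 lam.ker := by
  rintro ⟨⟨f, h⟩, hw⟩
  have hh : h = 1 := hw
  subst hh
  refine ⟨1, ?_⟩
  have h3 : ∀ z : Multiplicative (ZMod 3), z * z * z = 1 := by decide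
  have e : (⟨f, 1⟩ : HH) = SemidirectProduct.inl f := rfl
  ext1
  change (⟨f, 1⟩ : HH) ^ 3 = 1
  rw [e, ← map_pow]
  have : f ^ 3 = 1 := by
    ext i
    simp [pow_succ, h3]
  rw [this, map_one]

theorem fix : ∀ v ∈ lam.ker, ∀ h : HH, lam h ≠ 1 → (lam h) ^ 5 = 1 → v * h = h * v → v = 1 := by
  rintro ⟨f, x⟩ hx ⟨g, c⟩ hc hc5 hcomm
  have hx1 : x = 1 := hx
  subst hx1
  change c ≠ 1 at hc
  change c ^ 5 = 1 at hc5
  have h1 := congrArg SemidirectProduct.left hcomm
  simp only [SemidirectProduct.mul_left, map_one, MulAut.one_apply] at h1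
  rw [mul_comm] at h1
  have h2 : f = permHom c f := mul_left_cancel h1
  have h3 : ∀ i, f.1 (c i) = f.1 i := by
    intro i
    have := congrArg (fun z : prodHom.ker => z.1 (c i)) h2
    simp only [permHom, MonoidHom.coe_mk, OneHom.coe_mk, permAut] at this
    have h4 : f.1 (c i) = f.1 (c⁻¹ (c i)) := this
    have h5 : c⁻¹ (c i) = i := by
      rw [← Equiv.Perm.mul_apply, inv_mul_cancel]; rfl
    rwa [h5] at h4
  have h4 : ∀ (k : ℕ) (i : Fin 5), f.1 ((c ^ k) i) = f.1 i := by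
    intro k
    induction k with
    | zero => intro i; simp
    | succ k ih => intro i; rw [pow_succ, Equiv.Perm.mul_apply, ih, h3]
  have h5 : ∀ i, f.1 i = f.1 0 := by
    intro i
    obtain ⟨k, hk⟩ := orbit_five c hc hc5 i
    rw [← hk, h4]
  have h6 : ∏ i, f.1 i = 1 := f.2
  have h7 : ∀ z : Multiplicative (ZMod 3), z * z * z * z * z = 1 → z = 1 := by decide
  have h8 : f.1 0 = 1 := by
    apply h7
    rw [Fin.prod_univ_five] at h6
    simpa [h5 1, h5 2, h5 3, h5 4] using h6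
  have h9 : f = 1 := by
    ext i
    rw [h5 i, h8]
    rfl
  rw [h9]
  rfl

theorem faithful : ∀ g : GG, (∀ w ∈ pi.ker, g * w = w * g) → g ∈ pi.ker := by
  classical
  rintro ⟨f, h⟩ hw
  change h = 1
  by_contra hne
  have h1 := hw ⟨Pi.mulSingle 1 (Multiplicative.ofAdd 1), 1⟩ rfl
  have h2 := congrFun (congrArg RegularWreathProduct.left h1) 1
  simp only [RegularWreathProduct.mul_left, Pi.mul_apply, inv_one, mul_one, one_mul,
    Pi.mulSingle_eq_same] at h2
  rw [Pi.mulSingle_eq_of_ne (by simpa using hne), mul_one] at h2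
  have h3 : ∀ z : Multiplicative (ZMod 5), z ≠ Multiplicative.ofAdd 1 * z := by decide
  exact h3 _ h2

/-- A nontrivial element of `V`. -/
def vv : HH := ⟨⟨fun i => if i = 0 then Multiplicative.ofAdd 1 else
  if i = 1 then Multiplicative.ofAdd 2 else 1, by
    change ∏ i : Fin 5, (if i = 0 then Multiplicative.ofAdd (1 : ZMod 3) else
      if i = 1 then Multiplicative.ofAdd 2 else 1) = 1
    decide⟩, 1⟩

theorem vv_ne : vv ≠ 1 := by
  intro h
  have h1 := congrArg (fun z : HH => z.left.1 0) h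
  change Multiplicative.ofAdd (1 : ZMod 3) = 1 at h1
  revert h1
  decide

theorem dvd_of_elt {K : Type} [Group K] (p : ℕ) (hp : p.Prime) (x : K) (h : x ^ p = 1)
    (h1 : x ≠ 1) : p ∣ Nat.card K := by
  have h2 := orderOf_dvd_natCard x
  rcases (Nat.dvd_prime hp).1 (orderOf_dvd_of_pow_eq_one h) with h3 | h3
  · exact absurd (orderOf_eq_one_iff.1 h3) h1
  · rwa [h3] at h2

theorem dvd_five : 5 ∣ Nat.card (lam.comp pi).ker := by
  have hmem : (⟨fun _ => Multiplicative.ofAdd 1, 1⟩ : GG) ∈ (lam.comp pi).ker := rfl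
  apply dvd_of_elt 5 (by norm_num) (⟨_, hmem⟩ : (lam.comp pi).ker)
  · ext1
    exact pow_left_five _
  · intro h
    have h2 := congrFun (congrArg (fun z : (lam.comp pi).ker => (z : GG).left) h) 1
    have h3 : Multiplicative.ofAdd (1 : ZMod 5) ≠ 1 := by decide
    exact h3 h2

theorem dvd_three : 3 ∣ Nat.card (lam.comp pi).ker := by
  have hmem : (RegularWreathProduct.inl vv : GG) ∈ (lam.comp pi).ker := rfl
  have h3 : ∀ z : Multiplicative (ZMod 3), z * z * z = 1 := by decide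
  apply dvd_of_elt 3 (by norm_num) (⟨_, hmem⟩ : (lam.comp pi).ker)
  · ext1
    change (RegularWreathProduct.inl vv : GG) ^ 3 = 1
    rw [← map_pow]
    have e : vv = SemidirectProduct.inl vv.left := rfl
    have h4 : vv ^ 3 = 1 := by
      rw [e, ← map_pow]
      have h5 : vv.left ^ 3 = 1 := by
        ext i
        simp [pow_succ, h3]
      rw [h5, map_one]
    rw [h4, map_one]
  · intro h
    have h2 := congrArg (fun z : (lam.comp pi).ker => (z : GG).right) h
    exact vv_ne h2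

theorem result :
    ¬ ∀ (G : Type) [Group G] [Finite G] (A B : Subgroup G), A.Normal → B.Normal →
      (∀ g : G, ∃ a ∈ A, ∃ b ∈ B, g = a * b) →
      ∀ p q : ℕ, Edge G p q ↔ (Edge A p q ∨ Edge B p q) := by
  intro h
  have h1 := (h GG (lam.comp pi).ker ⊤ inferInstance inferInstance
    (fun g => ⟨1, one_mem _, g, Subgroup.mem_top g, (one_mul g).symm⟩) 5 3).2 (Or.inl ?_)
  · rcases h1.2.2.2.2.2 with h2 | h2
    · exact no_arc_five_three pi lam pi_surj lam_surj ker_pi ker_lam fix h2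
    · exact no_arc_three_five pi lam pi_surj lam_surj ker_pi ker_lam h2
  · have harc : Arc (lam.comp pi).ker 5 3 := arc_five_three pi lam pi_surj ker_pi ker_lam
      ⟨vv, rfl, vv_ne⟩ faithful
    exact ⟨by norm_num, by norm_num, dvd_five, dvd_three, by norm_num, Or.inl harc⟩

end Pool.Agent.Results.MP_8e29f8_al.SymFive
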